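import Mathlib

open MeasureTheory Filter Topology FourierTransform Convolution
open scoped ENNReal

namespace Pool.Agent.Results.MP_148afe_an.FourierNotVaguelyContinuous

/-- Euclidean space `ℝ^d`. -/
abbrev E (d : ℕ) := EuclideanSpace ℝ (Fin d)

/-- A complex Radon measure on `ℝ^d`, given by its polar decomposition `μ = u |μ|`: a positive
Borel measure `tv` that is finite on compact sets (the total variation measure `|μ|`, automatically
regular on `ℝ^d`) and a Borel function `u` with values in the unit circle.  Every complex Radon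
measure (continuous linear functional on `C_c(ℝ^d)`) has such a decomposition, unique up to
changing `u` on a `|μ|`-null set. -/
structure CRadon (d : ℕ) where
  tv : Measure (E d)
  finite_on_compacts : ∀ K : Set (E d), IsCompact K → tv K < ∞
  u : E d → ℂ
  measurable_u : Measurable u
  norm_u : ∀ x, ‖u x‖ = 1

variable {d : ℕ}

/-- The integral `μ(g) = ∫ g dμ`. -/
noncomputable def CRadon.int (μ : CRadon d) (g : E d → ℂ) : ℂ := ∫ x, g x * μ.u x ∂μ.tv

/-- `‖μ‖_K = sup_x |μ|(x + K)`. -/
noncomputable def CRadon.norm (μ : CRadon d) (K : Set (E d)) : ℝ≥0∞ := ⨆ x : E d, μ.tv ((fun y => x + y) '' K)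

/-- Translation bounded measures: `‖μ‖_K < ∞` for every compact `K`. -/
def CRadon.TranslationBounded (μ : CRadon d) : Prop :=
  ∀ K : Set (E d), IsCompact K → μ.norm K < ∞

/-- The reflection `f~(x) = conj (f (-x))`. -/
noncomputable def tilde (f : E d → ℂ) : E d → ℂ := fun x => starRingEnd ℂ (f (-x))

/-- `μ` is Fourier transformable and `ν` is its Fourier transform: for every `f ∈ C_c(ℝ^d)` the
inverse Fourier transform `f^∨ = 𝓕⁻ f`, `f^∨(y) = ∫ f(x) e^{2πi x·y} dx`, lies in `L²(|ν|)` and
`μ(f * f~) = ν(|f^∨|²)`. -/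
def IsFourierTransform (μ ν : CRadon d) : Prop :=
  ∀ f : E d → ℂ, Continuous f → HasCompactSupport f →
    MemLp (𝓕⁻ f) 2 ν.tv ∧
      μ.int (f ⋆[ContinuousLinearMap.mul ℂ ℂ] tilde f) =
        ν.int (fun y => ((‖𝓕⁻ f y‖ ^ 2 : ℝ) : ℂ))

/-- Rudin-Shapiro signs -/
lemma rudin_shapiro (n : ℕ) : ∃ ε δ : ℕ → ℝ, (∀ k, |ε k| = 1) ∧ (∀ k, |δ k| = 1) ∧
    ∀ z : ℂ, ‖z‖ = 1 → ‖∑ k ∈ Finset.range (2 ^ n), (ε k : ℂ) * z ^ k‖ ^ 2 +
      ‖∑ k ∈ Finset.range (2 ^ n), (δ k : ℂ) * z ^ k‖ ^ 2 = 2 ^ (n + 1) := by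
  induction n with
  | zero =>
    refine ⟨fun _ => 1, fun _ => 1, by simp, by simp, fun z _ => ?_⟩
    simp
    norm_num
  | succ n ih =>
    obtain ⟨ε, δ, hε, hδ, h⟩ := ih
    refine ⟨fun k => if k < 2 ^ n then ε k else δ (k - 2 ^ n),
      fun k => if k < 2 ^ n then ε k else - δ (k - 2 ^ n), ?_, ?_, ?_⟩
    · intro k
      by_cases hk : k < 2 ^ n
      · simp [hk, hε]
      · simp [hk, hδ]
    · intro k
      by_cases hk : k < 2 ^ n
      · simp [hk, hε]
      · simp [hk, hδ]
    · intro z hz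
      have e1 : ∑ k ∈ Finset.range (2 ^ (n + 1)),
          (((if k < 2 ^ n then ε k else δ (k - 2 ^ n) : ℝ)) : ℂ) * z ^ k =
          ∑ k ∈ Finset.range (2 ^ n), (ε k : ℂ) * z ^ k +
            z ^ (2 ^ n) * ∑ k ∈ Finset.range (2 ^ n), (δ k : ℂ) * z ^ k := by
        rw [pow_succ, mul_two, Finset.sum_range_add, Finset.mul_sum]
        congr 1
        · refine Finset.sum_congr rfl fun k hk => ?_
          rw [if_pos (Finset.mem_range.1 hk)]
        · refine Finset.sum_congr rfl fun k hk => ?_
          rw [if_neg (by omega)]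
          rw [Nat.add_sub_cancel_left, pow_add]
          ring
      have e2 : ∑ k ∈ Finset.range (2 ^ (n + 1)),
          (((if k < 2 ^ n then ε k else - δ (k - 2 ^ n) : ℝ)) : ℂ) * z ^ k =
          ∑ k ∈ Finset.range (2 ^ n), (ε k : ℂ) * z ^ k -
            z ^ (2 ^ n) * ∑ k ∈ Finset.range (2 ^ n), (δ k : ℂ) * z ^ k := by
        rw [pow_succ, mul_two, Finset.sum_range_add, Finset.mul_sum, sub_eq_add_neg,
          ← Finset.sum_neg_distrib]
        congr 1
        · refine Finset.sum_congr rfl fun k hk => ?_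
          rw [if_pos (Finset.mem_range.1 hk)]
        · refine Finset.sum_congr rfl fun k hk => ?_
          rw [if_neg (by omega)]
          rw [Nat.add_sub_cancel_left, pow_add]
          push_cast
          ring
      rw [e1, e2]
      have hpar := parallelogram_law_with_norm ℝ (∑ k ∈ Finset.range (2 ^ n), (ε k : ℂ) * z ^ k)
        (z ^ (2 ^ n) * ∑ k ∈ Finset.range (2 ^ n), (δ k : ℂ) * z ^ k)
      have hz' : ‖z ^ (2 ^ n) * ∑ k ∈ Finset.range (2 ^ n), (δ k : ℂ) * z ^ k‖ =
          ‖∑ k ∈ Finset.range (2 ^ n), (δ k : ℂ) * z ^ k‖ := by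
        rw [norm_mul, norm_pow, hz, one_pow, one_mul]
      rw [hz'] at hpar
      have := h z hz
      rw [pow_succ 2 (n+1)]
      nlinarith [hpar, this]


lemma rudin_shapiro' (n : ℕ) : ∃ ε : ℕ → ℝ, (∀ k, |ε k| = 1) ∧
    ∀ z : ℂ, ‖z‖ = 1 → ‖∑ k ∈ Finset.range (2 ^ n), (ε k : ℂ) * z ^ k‖ ^ 2 ≤ 2 ^ (n + 1) := by
  obtain ⟨ε, δ, hε, hδ, h⟩ := rudin_shapiro n
  refine ⟨ε, hε, fun z hz => ?_⟩
  have := h z hz
  have h2 : 0 ≤ ‖∑ k ∈ Finset.range (2 ^ n), (δ k : ℂ) * z ^ k‖ ^ 2 := by positivity
  linarith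

/-- the frequency `t e_0`. -/
noncomputable def freq (i : Fin d) (t : ℝ) : E d := EuclideanSpace.single i t

lemma inner_freq (i : Fin d) (t : ℝ) (x : E d) : inner ℝ x (freq i t) = x i * t := by
  rw [freq, EuclideanSpace.inner_single_right]
  simp [mul_comm]

/-- the density of the first measure -/
noncomputable def dens (i : Fin d) (c : ℝ) (N : ℕ) (ε : ℕ → ℝ) (x : E d) : ℂ :=
  (c : ℂ) * ∑ k ∈ Finset.range N, (ε k : ℂ) * ((Real.fourierChar (x i * (k / N)) : Circle) : ℂ)

lemma continuous_dens (i : Fin d) (c : ℝ) (N : ℕ) (ε : ℕ → ℝ) : Continuous (dens i c N ε) := by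
  unfold dens
  refine continuous_const.mul (continuous_finsetSum _ fun k _ => continuous_const.mul ?_)
  exact continuous_subtype_val.comp (Real.continuous_fourierChar.comp (by fun_prop))

lemma norm_dens_le (i : Fin d) {c : ℝ} (hc : 0 ≤ c) (n : ℕ) (ε : ℕ → ℝ)
    (h : ∀ z : ℂ, ‖z‖ = 1 → ‖∑ k ∈ Finset.range (2 ^ n), (ε k : ℂ) * z ^ k‖ ^ 2 ≤ 2 ^ (n + 1))
    (x : E d) : ‖dens i c (2 ^ n) ε x‖ ≤ c * Real.sqrt (2 ^ (n + 1)) := by
  unfold dens
  rw [norm_mul, Complex.norm_real, Real.norm_of_nonneg hc]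
  refine mul_le_mul_of_nonneg_left ?_ hc
  refine Real.le_sqrt_of_sq_le ?_
  have := h (Real.fourierChar (x i / (2 ^ n : ℕ)) : Circle) (Circle.norm_coe _)
  have e : ∑ k ∈ Finset.range (2 ^ n),
      (ε k : ℂ) * ((Real.fourierChar (x i * (k / (2 ^ n : ℕ))) : Circle) : ℂ) =
      ∑ k ∈ Finset.range (2 ^ n),
        (ε k : ℂ) * ((Real.fourierChar (x i / (2 ^ n : ℕ)) : Circle) : ℂ) ^ k := by
    refine Finset.sum_congr rfl fun k hk => ?_
    congr 1
    rw [← Circle.coe_pow, ← AddChar.map_nsmul_eq_pow]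
    congr 2
    simp
    ring
  rw [e]
  exact this


lemma coe_nnnorm_le_ofReal {z : ℂ} {C : ℝ} (h : ‖z‖ ≤ C) :
    ((‖z‖₊ : ℝ≥0∞)) ≤ ENNReal.ofReal C := by
  rw [← enorm_eq_nnnorm, ← ofReal_norm]
  exact ENNReal.ofReal_le_ofReal h

/-- The measure with a continuous density. -/
noncomputable def ofDens (D : E d → ℂ) (hD : Continuous D) : CRadon d where
  tv := volume.withDensity (fun x => (‖D x‖₊ : ℝ≥0∞))
  finite_on_compacts := by
    intro K hK
    rw [withDensity_apply _ hK.measurableSet]
    obtain ⟨C, hC⟩ := hK.exists_bound_of_continuousOn hD.continuousOn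
    calc ∫⁻ x in K, (‖D x‖₊ : ℝ≥0∞) ≤ ∫⁻ x in K, ENNReal.ofReal C := by
          refine setLIntegral_mono' hK.measurableSet fun x hx => ?_
          have := hC x hx
          exact coe_nnnorm_le_ofReal this
      _ = ENNReal.ofReal C * volume K := by rw [setLIntegral_const]
      _ < ∞ := ENNReal.mul_lt_top ENNReal.ofReal_lt_top hK.measure_lt_top
  u x := if D x = 0 then 1 else D x / (‖D x‖ : ℂ)
  measurable_u := by
    refine Measurable.ite ?_ measurable_const (by fun_prop)
    exact measurableSet_eq_fun hD.measurable measurable_const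
  norm_u x := by
    by_cases h : D x = 0
    · simp [h]
    · simp [h]

lemma ofDens_int (D : E d → ℂ) (hD : Continuous D) (g : E d → ℂ) :
    (ofDens D hD).int g = ∫ x, g x * D x := by
  unfold CRadon.int ofDens
  simp only
  rw [integral_withDensity_eq_integral_smul (by fun_prop)]
  refine integral_congr_ae (Filter.Eventually.of_forall fun x => ?_)
  simp only [NNReal.smul_def, coe_nnnorm, Complex.real_smul]
  by_cases h : D x = 0
  · simp [h]
  · rw [if_neg h]
    have : (‖D x‖ : ℂ) ≠ 0 := by simpa using h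
    field_simp

lemma ofDens_norm_le (D : E d → ℂ) (hD : Continuous D) {C : ℝ} (hC : ∀ x, ‖D x‖ ≤ C)
    {K : Set (E d)} (hK : IsCompact K) :
    (ofDens D hD).norm K ≤ ENNReal.ofReal C * volume K := by
  unfold CRadon.norm ofDens
  refine iSup_le fun x => ?_
  have hK' : IsCompact ((fun y => x + y) '' K) := hK.image (by fun_prop)
  simp only
  rw [withDensity_apply _ hK'.measurableSet]
  calc ∫⁻ y in ((fun y => x + y) '' K), (‖D y‖₊ : ℝ≥0∞)
        ≤ ∫⁻ y in ((fun y => x + y) '' K), ENNReal.ofReal C := by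
        refine setLIntegral_mono' hK'.measurableSet fun y _ => ?_
        exact coe_nnnorm_le_ofReal (hC y)
    _ = ENNReal.ofReal C * volume ((fun y => x + y) '' K) := by rw [setLIntegral_const]
    _ = ENNReal.ofReal C * volume K := by
        rw [Set.image_add_left, measure_preimage_add]

/-- The discrete measure `c ∑ ε_k δ_{(k/N) e_i}`. -/
noncomputable def comb (i : Fin d) (c : ℝ) (N : ℕ) (ε : ℕ → ℝ) (hε : ∀ k, |ε k| = 1) :
    CRadon d where
  tv := ENNReal.ofReal c • ∑ k ∈ Finset.range N, Measure.dirac (freq i (k / N))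
  finite_on_compacts := by
    intro K _
    rw [Measure.smul_apply, smul_eq_mul]
    exact ENNReal.mul_lt_top ENNReal.ofReal_lt_top (measure_lt_top _ _)
  u x := (ε ⌊(N : ℝ) * x i⌋₊ : ℂ)
  measurable_u := by
    have h1 : Measurable (fun x : E d => ⌊(N : ℝ) * x i⌋₊) := by
      refine Nat.measurable_floor.comp ?_
      fun_prop
    exact (measurable_from_nat (f := fun n => (ε n : ℂ))).comp h1
  norm_u x := by
    simp [hε]

lemma comb_int (i : Fin d) {c : ℝ} (hc : 0 ≤ c) {N : ℕ} (hN : 0 < N) (ε : ℕ → ℝ)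
    (hε : ∀ k, |ε k| = 1) (g : E d → ℂ) :
    (comb i c N ε hε).int g = (c : ℂ) * ∑ k ∈ Finset.range N, (ε k : ℂ) * g (freq i (k / N)) := by
  unfold CRadon.int comb
  simp only
  rw [integral_smul_measure, integral_finsetSum_measure]
  · rw [ENNReal.toReal_ofReal hc, Complex.real_smul]
    congr 1
    refine Finset.sum_congr rfl fun k _ => ?_
    rw [integral_dirac]
    have : (N : ℝ) * (freq i ((k : ℝ) / N)) i = k := by
      have : (freq i ((k : ℝ) / N)) i = (k : ℝ) / N := by simp [freq]
      rw [this]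
      field_simp
    rw [this, Nat.floor_natCast]
    ring
  · intro k _
    refine integrable_dirac ?_
    rw [enorm_mul]
    exact ENNReal.mul_lt_top enorm_lt_top enorm_lt_top


lemma fourierInv_tilde (f : E d → ℂ) (y : E d) :
    𝓕⁻ (tilde f) y = starRingEnd ℂ (𝓕⁻ f y) := by
  rw [Real.fourierInv_eq, Real.fourierInv_eq, ← integral_conj]
  rw [← integral_neg_eq_self]
  refine integral_congr_ae (Filter.Eventually.of_forall fun x => ?_)
  simp only [tilde, neg_neg, inner_neg_left, Circle.smul_def, smul_eq_mul, map_mul]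
  congr 1
  rw [AddChar.map_neg_eq_inv, Circle.coe_inv_eq_conj]

lemma fourierInv_conv_tilde (f : E d → ℂ) (hf : Continuous f) (hfc : HasCompactSupport f)
    (y : E d) :
    𝓕⁻ (f ⋆[ContinuousLinearMap.mul ℂ ℂ] tilde f) y = ((‖𝓕⁻ f y‖ ^ 2 : ℝ) : ℂ) := by
  have hint : Integrable f := hf.integrable_of_hasCompactSupport hfc
  have hint2 : Integrable (tilde f) := by
    have h1 : Integrable (fun x => f (-x)) := hint.comp_neg
    have := (Complex.conjCLE.toContinuousLinearMap.integrable_comp h1)
    exact this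
  rw [Real.fourierInv_eq_fourier_neg, Real.fourier_mul_convolution_eq hint hint2,
    ← Real.fourierInv_eq_fourier_neg, ← Real.fourierInv_eq_fourier_neg, fourierInv_tilde]
  rw [Complex.mul_conj, Complex.normSq_eq_norm_sq]

lemma integral_char (i : Fin d) (g : E d → ℂ) (t : ℝ) :
    ∫ x, g x * ((Real.fourierChar (x i * t) : Circle) : ℂ) = 𝓕⁻ g (freq i t) := by
  rw [Real.fourierInv_eq]
  refine integral_congr_ae (Filter.Eventually.of_forall fun x => ?_)
  simp only [Circle.smul_def, smul_eq_mul, inner_freq]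
  ring

lemma isFourierTransform_comb (i : Fin d) {c : ℝ} (hc : 0 ≤ c) {N : ℕ} (hN : 0 < N)
    (ε : ℕ → ℝ) (hε : ∀ k, |ε k| = 1) :
    IsFourierTransform (ofDens (dens i c N ε) (continuous_dens i c N ε)) (comb i c N ε hε) := by
  intro f hf hfc
  have hint : Integrable f := hf.integrable_of_hasCompactSupport hfc
  have hint2 : Integrable (tilde f) := by
    have h1 : Integrable (fun x => f (-x)) := hint.comp_neg
    exact (Complex.conjCLE.toContinuousLinearMap.integrable_comp h1)
  constructor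
  · have hb : ∀ y, ‖𝓕⁻ f y‖ ≤ ∫ x, ‖f x‖ := by
      intro y
      rw [Real.fourierInv_eq]
      refine (norm_integral_le_integral_norm _).trans (le_of_eq ?_)
      refine integral_congr_ae (Filter.Eventually.of_forall fun x => ?_)
      simp
    have hfin : IsFiniteMeasure (comb i c N ε hε).tv := by
      constructor
      show (ENNReal.ofReal c • ∑ k ∈ Finset.range N, Measure.dirac (freq i (k / N))) Set.univ < ∞
      rw [Measure.smul_apply, smul_eq_mul]
      exact ENNReal.mul_lt_top ENNReal.ofReal_lt_top (measure_lt_top _ _)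
    have hcont : Continuous (𝓕⁻ f) := by
      have : 𝓕⁻ f = fun y => 𝓕 f (-y) := by
        ext y
        rw [Real.fourierInv_eq_fourier_neg]
      rw [this]
      exact (VectorFourier.fourierIntegral_continuous Real.continuous_fourierChar
        continuous_inner hint).comp continuous_neg
    exact MemLp.of_bound hcont.aestronglyMeasurable _ (Filter.Eventually.of_forall hb)
  · rw [ofDens_int, comb_int i hc hN]
    have hconv : Integrable (f ⋆[ContinuousLinearMap.mul ℂ ℂ] tilde f) :=
      hint.integrable_convolution (ContinuousLinearMap.mul ℂ ℂ) hint2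
    unfold dens
    have e1 : ∀ x : E d, (f ⋆[ContinuousLinearMap.mul ℂ ℂ] tilde f) x *
        ((c : ℂ) * ∑ k ∈ Finset.range N, (ε k : ℂ) *
          ((Real.fourierChar (x i * (k / N)) : Circle) : ℂ)) =
        ∑ k ∈ Finset.range N, (c : ℂ) * ((ε k : ℂ) *
          ((f ⋆[ContinuousLinearMap.mul ℂ ℂ] tilde f) x *
            ((Real.fourierChar (x i * (k / N)) : Circle) : ℂ))) := by
      intro x
      rw [Finset.mul_sum, Finset.mul_sum]
      refine Finset.sum_congr rfl fun k _ => by ring
    simp_rw [e1]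
    rw [integral_finsetSum]
    · rw [Finset.mul_sum]
      refine Finset.sum_congr rfl fun k _ => ?_
      rw [integral_const_mul, integral_const_mul, integral_char, fourierInv_conv_tilde f hf hfc]
    · intro k _
      refine Integrable.const_mul (Integrable.const_mul ?_ _) _
      refine hconv.mul_bdd (c := 1) ?_ ?_
      · exact (continuous_subtype_val.comp
          (Real.continuous_fourierChar.comp (by fun_prop))).aestronglyMeasurable
      · exact Filter.Eventually.of_forall fun x => (Circle.norm_coe _).le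


lemma freq_injective (i : Fin d) : Function.Injective (freq i : ℝ → E d) := by
  intro s t h
  have := congrArg (fun v : E d => v i) h
  simpa [freq] using this

/-- A bounded continuous function with prescribed signs at the frequencies. -/
lemma exists_bcf (i : Fin d) {N : ℕ} (hN : 0 < N) (ε : ℕ → ℝ) (hε : ∀ k, |ε k| = 1) :
    ∃ g : BoundedContinuousFunction (E d) ℝ, ‖g‖ ≤ 1 ∧
      ∀ k ∈ Finset.range N, g (freq i (k / N)) = ε k := by
  classical
  let S : Set (E d) := (fun k : ℕ => freq i ((k : ℝ) / N)) '' (Finset.range N : Set ℕ)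
  have hS : S.Finite := (Finset.range N).finite_toSet.image _
  have hSc : IsClosed S := hS.isClosed
  have : Finite S := hS
  have : DiscreteTopology S := Finite.instDiscreteTopology
  let φ : S → ℝ := fun x => ε ⌊(N : ℝ) * (x : E d) i⌋₊
  let F : BoundedContinuousFunction S ℝ := BoundedContinuousFunction.ofNormedAddCommGroup φ
    continuous_of_discreteTopology 1 (fun x => by simp [φ, hε])
  obtain ⟨g, hg, hgF⟩ := BoundedContinuousFunction.exists_extension_norm_eq_of_isClosedEmbedding F
    hSc.isClosedEmbedding_subtypeVal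
  refine ⟨g, ?_, ?_⟩
  · rw [hg]
    exact BoundedContinuousFunction.norm_ofNormedAddCommGroup_le _ zero_le_one _
  · intro k hk
    have hmem : freq i ((k : ℝ) / N) ∈ S := ⟨k, by simpa using hk, rfl⟩
    have := congrFun hgF ⟨_, hmem⟩
    simp only [Function.comp] at this
    rw [this]
    show ε ⌊(N : ℝ) * (freq i ((k : ℝ) / N)) i⌋₊ = ε k
    have e : (N : ℝ) * (freq i ((k : ℝ) / N)) i = k := by
      have : (freq i ((k : ℝ) / N)) i = (k : ℝ) / N := by simp [freq]
      rw [this]
      field_simp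
    rw [e, Nat.floor_natCast]

/-- cutoff -/
noncomputable def cut (x : E d) : ℝ := max 0 (min 1 (2 - ‖x‖))

lemma continuous_cut : Continuous (cut : E d → ℝ) := by
  unfold cut
  fun_prop

lemma cut_compact : HasCompactSupport (cut : E d → ℝ) := by
  refine HasCompactSupport.intro (isCompact_closedBall (0 : E d) 2) fun x hx => ?_
  have : 2 < ‖x‖ := by simpa using hx
  unfold cut
  rw [max_eq_left]
  exact (min_le_right _ _).trans (by linarith)

lemma cut_one {x : E d} (hx : ‖x‖ ≤ 1) : cut x = 1 := by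
  unfold cut
  rw [min_eq_left (by linarith), max_eq_right zero_le_one]

lemma cut_le (x : E d) : |cut x| ≤ 1 := by
  unfold cut
  rw [abs_of_nonneg (le_max_left _ _)]
  exact max_le zero_le_one (min_le_left _ _)


lemma ofDens_translationBounded (D : E d → ℂ) (hD : Continuous D) {C : ℝ}
    (hC : ∀ x, ‖D x‖ ≤ C) : (ofDens D hD).TranslationBounded := fun K hK =>
  (ofDens_norm_le D hD hC hK).trans_lt (ENNReal.mul_lt_top ENNReal.ofReal_lt_top hK.measure_lt_top)

lemma comb_translationBounded (i : Fin d) (c : ℝ) (N : ℕ) (ε : ℕ → ℝ) (hε : ∀ k, |ε k| = 1) :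
    (comb i c N ε hε).TranslationBounded := by
  intro K _
  have h : (comb i c N ε hε).tv Set.univ < ∞ := by
    show (ENNReal.ofReal c • ∑ k ∈ Finset.range N, Measure.dirac (freq i (k / N))) Set.univ < ∞
    rw [Measure.smul_apply, smul_eq_mul]
    exact ENNReal.mul_lt_top ENNReal.ofReal_lt_top (measure_lt_top _ _)
  refine (iSup_le fun x => ?_).trans_lt h
  exact measure_mono (Set.subset_univ _)

/-- **The answer to Q1 is no.**  For every `d ≥ 1` and every compact `K ⊆ ℝ^d` there are Fourier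
transformable translation bounded measures `μ_n` with `‖μ_n‖_K → 0` whose Fourier transforms `ν_n`
do not converge vaguely to `0`. -/
theorem result (d : ℕ) (hd : 0 < d) (K : Set (E d)) (hK : IsCompact K) :
    ∃ μ ν : ℕ → CRadon d,
      (∀ n, (μ n).TranslationBounded ∧ (ν n).TranslationBounded ∧
        IsFourierTransform (μ n) (ν n)) ∧
      Tendsto (fun n => (μ n).norm K) atTop (𝓝 0) ∧
      ∃ g : E d → ℂ, Continuous g ∧ HasCompactSupport g ∧
        ¬ Tendsto (fun n => (ν n).int g) atTop (𝓝 0) := by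
  let i : Fin d := ⟨0, hd⟩
  choose ε hε hP using fun m : ℕ => rudin_shapiro' (4 * m)
  let c : ℕ → ℝ := fun m => (1 / 8) ^ m
  have hc : ∀ m, 0 ≤ c m := fun m => by positivity
  have hN : ∀ m, 0 < 2 ^ (4 * m) := fun m => by positivity
  have hbound : ∀ m (x : E d), ‖dens i (c m) (2 ^ (4 * m)) (ε m) x‖ ≤ Real.sqrt 2 * (1 / 2) ^ m := by
    intro m x
    refine (norm_dens_le i (hc m) (4 * m) (ε m) (hP m) x).trans (le_of_eq ?_)
    have : Real.sqrt (2 ^ (4 * m + 1)) = Real.sqrt 2 * 4 ^ m := by
      rw [pow_succ, mul_comm (2 ^ (4 * m) : ℝ) 2, Real.sqrt_mul (by norm_num)]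
      congr 1
      rw [show (2 : ℝ) ^ (4 * m) = (4 ^ m) ^ 2 by rw [← pow_mul, mul_comm m 2, pow_mul, pow_mul]; norm_num]
      exact Real.sqrt_sq (by positivity)
    rw [this]
    simp only [c]
    rw [mul_comm, mul_assoc, ← mul_pow]
    norm_num
  refine ⟨fun m => ofDens (dens i (c m) (2 ^ (4 * m)) (ε m)) (continuous_dens i _ _ _),
    fun m => comb i (c m) (2 ^ (4 * m)) (ε m) (hε m), fun m => ⟨?_, ?_, ?_⟩, ?_, ?_⟩
  · exact ofDens_translationBounded _ _ (hbound m)
  · exact comb_translationBounded _ _ _ _ _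
  · exact isFourierTransform_comb i (hc m) (hN m) (ε m) (hε m)
  · have h1 : Tendsto (fun m : ℕ => ENNReal.ofReal (Real.sqrt 2 * (1 / 2) ^ m) * volume K) atTop
        (𝓝 0) := by
      have h2 : Tendsto (fun m : ℕ => Real.sqrt 2 * (1 / 2 : ℝ) ^ m) atTop (𝓝 (Real.sqrt 2 * 0)) :=
        (tendsto_pow_atTop_nhds_zero_of_lt_one (by norm_num) (by norm_num)).const_mul _
      have h3 := ENNReal.tendsto_ofReal h2
      rw [mul_zero, ENNReal.ofReal_zero] at h3
      have h4 := ENNReal.Tendsto.mul_const h3 (b := volume K) (Or.inr hK.measure_lt_top.ne)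
      rwa [zero_mul] at h4
    refine tendsto_of_tendsto_of_tendsto_of_le_of_le tendsto_const_nhds h1 (fun _ => bot_le)
      fun m => ?_
    exact ofDens_norm_le _ _ (hbound m) hK
  · by_contra hcon
    push Not at hcon
    let T : ℕ → BoundedContinuousFunction (E d) ℝ →L[ℝ] ℝ := fun m =>
      c m • ∑ k ∈ Finset.range (2 ^ (4 * m)),
        ε m k • BoundedContinuousFunction.evalCLM ℝ (freq i ((k : ℝ) / (2 ^ (4 * m) : ℕ)))
    have hT : ∀ m (h : BoundedContinuousFunction (E d) ℝ), T m h =
        c m * ∑ k ∈ Finset.range (2 ^ (4 * m)), ε m k * h (freq i ((k : ℝ) / (2 ^ (4 * m) : ℕ))) := by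
      intro m h
      simp only [T, ContinuousLinearMap.smul_apply, ContinuousLinearMap.sum_apply,
        BoundedContinuousFunction.evalCLM_apply, smul_eq_mul]
    have hbs : ∀ h : BoundedContinuousFunction (E d) ℝ, ∃ C, ∀ m, ‖T m h‖ ≤ C := by
      intro h
      have hg := hcon (fun x => ((cut x * h x : ℝ) : ℂ))
        (Complex.continuous_ofReal.comp (continuous_cut.mul h.continuous))
        ((cut_compact.mul_right (f' := fun x => h x)).comp_left (g := fun t : ℝ => (t : ℂ)) (by simp))
      have he : ∀ m, (comb i (c m) (2 ^ (4 * m)) (ε m) (hε m)).int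
          (fun x => ((cut x * h x : ℝ) : ℂ)) = ((T m h : ℝ) : ℂ) := by
        intro m
        rw [comb_int i (hc m) (hN m), hT]
        push_cast
        congr 1
        refine Finset.sum_congr rfl fun k hk => ?_
        rw [cut_one]
        · push_cast
          ring
        · have hk' : k < 2 ^ (4 * m) := Finset.mem_range.1 hk
          simp only [freq, EuclideanSpace.norm_single]
          rw [Real.norm_of_nonneg (by positivity)]
          rw [div_le_one (by positivity)]
          exact_mod_cast hk'.le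
      simp_rw [he] at hg
      obtain ⟨C, hC⟩ := (Metric.isBounded_range_of_tendsto _ hg).exists_norm_le
      refine ⟨C, fun m => ?_⟩
      have := hC _ ⟨m, rfl⟩
      simpa using this
    obtain ⟨C', hC'⟩ := banach_steinhaus hbs
    have hlow : ∀ m : ℕ, (2 : ℝ) ^ m ≤ C' := by
      intro m
      obtain ⟨g, hg1, hg2⟩ := exists_bcf i (hN m) (ε m) (hε m)
      have h1 : T m g = 2 ^ m := by
        rw [hT]
        have : ∀ k ∈ Finset.range (2 ^ (4 * m)),
            ε m k * g (freq i ((k : ℝ) / (2 ^ (4 * m) : ℕ))) = 1 := by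
          intro k hk
          rw [hg2 k hk, ← sq, ← sq_abs, hε m k, one_pow]
        rw [Finset.sum_congr rfl this]
        simp only [Finset.sum_const, Finset.card_range, nsmul_eq_mul, mul_one, c]
        push_cast
        rw [pow_mul, ← mul_pow]
        norm_num
      calc (2 : ℝ) ^ m = ‖T m g‖ := by
            rw [h1, Real.norm_of_nonneg (by positivity)]
        _ ≤ ‖T m‖ * ‖g‖ := (T m).le_opNorm g
        _ ≤ ‖T m‖ * 1 := by gcongr
        _ ≤ C' := by rw [mul_one]; exact hC' m
    obtain ⟨m, hm⟩ := pow_unbounded_of_one_lt C' (one_lt_two : (1 : ℝ) < 2)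
    exact absurd (hlow m) (not_le.2 hm)

end Pool.Agent.Results.MP_148afe_an.FourierNotVaguelyContinuous
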